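import Pool.Agent.K3h75.ND.StmN

/-!
# A positive proportion of the integral forms is good (brick CNT, helper91, for helper75)

All but a small proportion of the forms in a residue class modulo `Q` (the product of the small
primes), in which they are smooth modulo all small primes, are outside the exceptional set of the
sieve.
-/

set_option autoImplicit false
set_option linter.unusedSectionVars false

namespace Pool.Agent.K3h91.ND

open MvPolynomial Pool.Agent.K3h75.ND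

theorem crt (f : ℕ → ℤ) (S : Finset ℕ) (hS : ∀ p ∈ S, p.Prime) :
    ∃ a : ℤ, ∀ p ∈ S, (p : ℤ) ∣ a - f p := by
  classical
  induction S using Finset.induction_on with
  | empty => exact ⟨0, by simp⟩
  | insert p S hp ih =>
    obtain ⟨a, ha⟩ := ih (fun q hq => hS q (Finset.mem_insert_of_mem hq))
    have hcop : IsCoprime (p : ℤ) (∏ q ∈ S, (q : ℤ)) := by
      apply IsCoprime.prod_right
      intro q hq
      rw [Nat.isCoprime_iff_coprime]
      exact (Nat.coprime_primes (hS p (Finset.mem_insert_self _ _))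
        (hS q (Finset.mem_insert_of_mem hq))).2 (fun h => hp (h ▸ hq))
    obtain ⟨u, v, huv⟩ := hcop
    refine ⟨a * (u * p) + f p * (v * ∏ q ∈ S, (q : ℤ)), ?_⟩
    intro q hq
    rcases Finset.mem_insert.1 hq with rfl | hq
    · refine ⟨a * u - f q * u, ?_⟩
      linear_combination (f q) * huv
    · have h1 : (q : ℤ) ∣ ∏ q ∈ S, (q : ℤ) := Finset.dvd_prod_of_mem _ hq
      have h2 : a * (u * p) + f p * (v * ∏ q ∈ S, (q : ℤ)) - f q =
          (a - f q) + (∏ q ∈ S, (q : ℤ)) * (v * (f p - a)) := by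
        linear_combination a * huv
      rw [h2]
      exact dvd_add (ha q hq) (h1.mul_right _)

/-- the interval of a residue class -/
theorem card_class (H Q : ℕ) (hQ : 1 ≤ Q) (hH : Q ≤ H) (v : ℤ) :
    (H : ℝ) / Q ≤ (((Finset.Icc (-(H : ℤ)) H).filter (fun x => (Q : ℤ) ∣ x - v)).card : ℝ) := by
  have hQ0 : (0 : ℤ) < Q := by exact_mod_cast hQ
  have h1 := Int.Ioc_filter_modEq_card (-(H : ℤ)) H hQ0 v
  have hsub : ((Finset.Ioc (-(H : ℤ)) H).filter (fun x => x ≡ v [ZMOD Q])) ⊆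
      ((Finset.Icc (-(H : ℤ)) H).filter (fun x => (Q : ℤ) ∣ x - v)) := by
    intro x hx
    rw [Finset.mem_filter, Finset.mem_Ioc] at hx
    rw [Finset.mem_filter, Finset.mem_Icc]
    exact ⟨⟨hx.1.1.le, hx.1.2⟩, (Int.modEq_iff_dvd.1 hx.2.symm)⟩
  have h2 := Finset.card_le_card hsub
  have h3 : ((⌊(((H : ℤ) - v : ℤ) : ℚ) / ((Q : ℤ) : ℚ)⌋ - ⌊((-(H : ℤ) - v : ℤ) : ℚ) / ((Q : ℤ) : ℚ)⌋ : ℤ)) ≤
      (((Finset.Ioc (-(H : ℤ)) H).filter (fun x => x ≡ v [ZMOD Q])).card : ℤ) := by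
    rw [h1]
    push_cast
    exact le_max_left _ _
  have h4 : (((H : ℤ) - v : ℤ) : ℚ) / ((Q : ℤ) : ℚ) - 1 <
      (⌊(((H : ℤ) - v : ℤ) : ℚ) / ((Q : ℤ) : ℚ)⌋ : ℚ) := Int.sub_one_lt_floor _
  have h5 : (⌊((-(H : ℤ) - v : ℤ) : ℚ) / ((Q : ℤ) : ℚ)⌋ : ℚ) ≤
      ((-(H : ℤ) - v : ℤ) : ℚ) / ((Q : ℤ) : ℚ) := Int.floor_le _
  have h6 : (((⌊(((H : ℤ) - v : ℤ) : ℚ) / ((Q : ℤ) : ℚ)⌋ -
      ⌊((-(H : ℤ) - v : ℤ) : ℚ) / ((Q : ℤ) : ℚ)⌋ : ℤ)) : ℚ) ≤
      (((Finset.Ioc (-(H : ℤ)) H).filter (fun x => x ≡ v [ZMOD Q])).card : ℚ) := by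
    exact_mod_cast h3
  have hQ1 : (0 : ℚ) < Q := by exact_mod_cast hQ
  have h7 : (H : ℚ) / Q ≤ (((Finset.Ioc (-(H : ℤ)) H).filter (fun x => x ≡ v [ZMOD Q])).card : ℚ) := by
    have h8 : (1 : ℚ) ≤ (H : ℚ) / Q := by
      rw [le_div_iff₀ hQ1, one_mul]
      exact_mod_cast hH
    push_cast at h4 h5 h6
    have h9 : ((H : ℚ) - v) / Q - (-(H : ℚ) - v) / Q = 2 * ((H : ℚ) / Q) := by
      field_simp
      ring
    linarith
  have h10 : (H : ℝ) / Q ≤ (((Finset.Ioc (-(H : ℤ)) H).filter (fun x => x ≡ v [ZMOD Q])).card : ℝ) := by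
    have h12 := (Rat.cast_le (K := ℝ)).2 h7
    push_cast at h12
    exact h12
  have h11 : (((Finset.Ioc (-(H : ℤ)) H).filter (fun x => x ≡ v [ZMOD Q])).card : ℝ) ≤
      (((Finset.Icc (-(H : ℤ)) H).filter (fun x => (Q : ℤ) ∣ x - v)).card : ℝ) := by
    exact_mod_cast h2
  exact h10.trans h11

theorem ev_cast {ι k : Type} [CommRing k] (g : Polynomial (MvPolynomial ι ℤ)) (b : ι → ℤ)
    (z : ℤ) : ev g (fun i => (b i : k)) (z : k) = ((ev g b z : ℤ) : k) := by
  unfold ev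
  have h1 : (eval₂Hom (Int.castRingHom k) (fun i => (b i : k)) : MvPolynomial ι ℤ →+* k) =
      (Int.castRingHom k).comp (eval₂Hom (Int.castRingHom ℤ) b) := by
    apply MvPolynomial.ringHom_ext
    · intro r
      simp
    · intro i
      simp
  rw [h1, ← Polynomial.map_map, show (z : k) = (Int.castRingHom k) z from rfl,
    Polynomial.eval_map_apply]
  rfl

theorem eval_cast {ι k : Type} [CommRing k] (Δ : MvPolynomial ι ℤ) (b : ι → ℤ) :
    eval₂ (Int.castRingHom k) (fun i => (b i : k)) Δ = ((eval b Δ : ℤ) : k) := by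
  have h1 : (eval₂Hom (Int.castRingHom k) (fun i => (b i : k)) : MvPolynomial ι ℤ →+* k) =
      (Int.castRingHom k).comp (eval b) := by
    apply MvPolynomial.ringHom_ext
    · intro r
      simp
    · intro i
      simp
  have h2 := congrArg (fun φ : MvPolynomial ι ℤ →+* k => φ Δ) h1
  exact h2

open Classical in
theorem card_mon (N d : ℕ) : Fintype.card (Mon (N + 1) d) = Fintype.card (Idx N d) + 1 := by
  have e : {m : Mon (N + 1) d // IsFirst m} ⊕ {m : Mon (N + 1) d // ¬ IsFirst m} ≃ Mon (N + 1) d :=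
    Equiv.sumCompl _
  have hd : (Finsupp.single (0 : Fin (N + 1)) d).degree = d := by
    simp [Finsupp.degree_single]
  have hu : Fintype.card {m : Mon (N + 1) d // IsFirst m} = 1 := by
    rw [Fintype.card_eq_one_iff]
    refine ⟨⟨⟨Finsupp.single 0 d, hd⟩, rfl⟩, ?_⟩
    rintro ⟨m, hm⟩
    apply Subtype.ext
    apply Subtype.ext
    exact hm
  have h1 := Fintype.card_congr e
  rw [Fintype.card_sum, hu] at h1
  have h2 : Fintype.card {m : Mon (N + 1) d // ¬ IsFirst m} = Fintype.card (Idx N d) :=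
    Fintype.card_congr (Equiv.refl _)
  omega

theorem pcoef_cast {N d : ℕ} {k : Type} [CommRing k] (b : Idx N d → ℤ) (c : ℤ) :
    (fun m => ((pcoef b c m : ℤ) : k)) = pcoef (fun i => (b i : k)) (c : k) := by
  funext m
  unfold pcoef
  split_ifs <;> simp

/-- the first coordinate -/
noncomputable def fst0 (N d : ℕ) : Mon (N + 1) d := ⟨Finsupp.single 0 d, by
  simp [Finsupp.degree_single]⟩

open Classical in
/-- the map to the parameters -/
noncomputable def par {N d : ℕ} (a : Mon (N + 1) d → ℤ) : (Idx N d → ℤ) × ℤ :=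
  (fun m => a m.1 - (if IsPow m.1 then a (fst0 N d) else 0), a (fst0 N d))

theorem pcoef_par {N d : ℕ} (a : Mon (N + 1) d → ℤ) : pcoef (par a).1 (par a).2 = a := by
  classical
  funext m
  unfold pcoef par
  by_cases h : IsFirst m
  · have hm : m = fst0 N d := Subtype.ext h
    have hp : IsPow m := ⟨0, h⟩
    rw [dif_pos h, if_pos hp, hm, zero_add]
  · rw [dif_neg h]
    simp

theorem par_inj {N d : ℕ} : Function.Injective (par : (Mon (N + 1) d → ℤ) → _) := by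
  intro a a' h
  rw [← pcoef_par a, ← pcoef_par a', h]

theorem t_CNT : S_EK → S_E1 → S_E2 → S_SMP → S_CNT := by
  classical
  intro EK E1 E2 SMP N d hN hd
  obtain ⟨g, hg, hE1⟩ := E1 N d hd
  obtain ⟨Δ, hΔ, hE2⟩ := E2 N d hd
  obtain ⟨C₁, hC₁, P₀, hEK⟩ := EK (Idx N d) g hg d (by omega) Δ hΔ
  -- the primes
  set P : ℕ := P₀ + ⌈2 * C₁⌉₊ + 1 with hP
  have hPC : 2 * C₁ ≤ P := by
    have h1 : 2 * C₁ ≤ (⌈2 * C₁⌉₊ : ℝ) := Nat.le_ceil _
    have h2 : ((⌈2 * C₁⌉₊ : ℕ) : ℝ) ≤ (P : ℝ) := by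
      rw [hP]
      push_cast
      have : (0 : ℝ) ≤ (P₀ : ℝ) := Nat.cast_nonneg _
      linarith
    linarith
  have hP1 : (0 : ℝ) < P := by
    rw [hP]
    positivity
  let S : Finset ℕ := (Finset.range (P + 1)).filter Nat.Prime
  have hS : ∀ p ∈ S, p.Prime := fun p hp => (Finset.mem_filter.1 hp).2
  let Q : ℕ := ∏ p ∈ S, p
  have hQ1 : 1 ≤ Q :=
    Nat.one_le_iff_ne_zero.2 (Finset.prod_ne_zero_iff.2 fun p hp => (hS p hp).ne_zero)
  have hQ : ∀ p : ℕ, p.Prime → P < p → ¬ p ∣ Q := by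
    intro p hp hPp hdvd
    obtain ⟨q, hq, hpq⟩ := (hp.prime.dvd_finsetProd_iff _).1 hdvd
    have h1 := (Nat.prime_dvd_prime_iff_eq hp (hS q hq)).1 hpq
    have h2 : q < P + 1 := Finset.mem_range.1 (Finset.mem_filter.1 hq).1
    omega
  have hQd : ∀ p ∈ S, (p : ℤ) ∣ (Q : ℤ) := by
    intro p hp
    exact_mod_cast Finset.dvd_prod_of_mem (fun p : ℕ => p) hp
  -- the smooth forms
  have hsm : ∀ p : ℕ, ∃ a : Mon (N + 1) d → ℤ, p.Prime → ∀ (k : Type) [Field k] [CharP k p]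
      (x : Fin (N + 1) → k), eval x (form fun m => (a m : k)) = 0 →
      (∀ i, eval x (pderiv i (form fun m => (a m : k))) = 0) → x = 0 := by
    intro p
    by_cases hp : p.Prime
    · obtain ⟨a, ha⟩ := SMP N d hN hd p hp
      exact ⟨a, fun _ => ha⟩
    · exact ⟨0, fun h => absurd h hp⟩
  choose sm hsm using hsm
  have ha₀ : ∀ m : Mon (N + 1) d, ∃ a : ℤ, ∀ p ∈ S, (p : ℤ) ∣ a - sm p m := fun m =>
    crt (fun p => sm p m) S hS
  choose a₀ ha₀ using ha₀
  obtain ⟨H₀, hH₀⟩ := hEK P (by omega) Q hQ1 hQ (par a₀).1 (par a₀).2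
  -- the exceptional set
  let Z : ℕ → Set ((Idx N d → ℤ) × ℤ) := fun H => {z | (∀ i, |z.1 i| ≤ 2 * H ∧
      (Q : ℤ) ∣ z.1 i - (par a₀).1 i) ∧ |z.2| ≤ H ∧
      (Q : ℤ) ∣ z.2 - (par a₀).2 ∧ (ev g z.1 (d * z.2) = 0 ∨ eval z.1 Δ = 0 ∨
        ∃ p : ℕ, p.Prime ∧ P < p ∧ (p : ℤ) ∣ ev g z.1 (d * z.2) ∧
          (p : ℤ) ∣ eval z.1 Δ)}
  have hZfin : ∀ H, (Z H).Finite := by
    intro H
    have h1 : ((Set.pi Set.univ (fun _ : Idx N d => Set.Icc (-(2 * H : ℤ)) (2 * H))) ×ˢ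
        (Set.Icc (-(H : ℤ)) H)).Finite :=
      (Set.Finite.pi (fun _ => Set.finite_Icc _ _)).prod (Set.finite_Icc _ _)
    refine h1.subset ?_
    rintro ⟨b, c⟩ ⟨h2, h3, -, -⟩
    refine ⟨fun i _ => abs_le.1 (h2 i).1, abs_le.1 h3⟩
  -- the class
  let T : ℕ → Finset (Mon (N + 1) d → ℤ) := fun H => Fintype.piFinset fun m =>
    (Finset.Icc (-(H : ℤ)) H).filter (fun x => (Q : ℤ) ∣ x - a₀ m)
  have hTmem : ∀ H a, a ∈ T H ↔ ∀ m, |a m| ≤ H ∧ (Q : ℤ) ∣ a m - a₀ m := by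
    intro H a
    simp only [T, Fintype.mem_piFinset, Finset.mem_filter, Finset.mem_Icc, abs_le]
  have hTcard : ∀ H, Q ≤ H → ((H : ℝ) / Q) ^ Fintype.card (Mon (N + 1) d) ≤ ((T H).card : ℝ) := by
    intro H hH
    rw [Fintype.card_piFinset]
    push_cast
    rw [← Finset.card_univ, ← Finset.prod_const]
    apply Finset.prod_le_prod
    · intro i _
      positivity
    · intro m _
      exact card_class H Q hQ1 hH (a₀ m)
  -- good vectors
  have hgood : ∀ H, ∀ a ∈ T H, par a ∉ Z H → GoodVec a := by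
    intro H a ha hZ
    rw [hTmem] at ha
    have hform : ∀ (k : Type) [Field k], (form fun m => (a m : k)) =
        pform (fun i => ((par a).1 i : k)) ((par a).2 : k) := by
      intro k _
      unfold pform
      rw [← pcoef_cast, pcoef_par]
    have hbox : (∀ i, |(par a).1 i| ≤ 2 * H ∧ (Q : ℤ) ∣ (par a).1 i - (par a₀).1 i) ∧
        |(par a).2| ≤ H ∧ (Q : ℤ) ∣ (par a).2 - (par a₀).2 := by
      refine ⟨fun i => ?_, (ha _).1, (ha _).2⟩
      unfold par
      simp only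
      split_ifs with h
      · refine ⟨?_, ?_⟩
        · have h1 := abs_le.1 (ha i.1).1
          have h2 := abs_le.1 (ha (fst0 N d)).1
          rw [abs_le]
          constructor <;> linarith [h1.1, h1.2, h2.1, h2.2]
        · have h3 : a i.1 - a (fst0 N d) - (a₀ i.1 - a₀ (fst0 N d)) =
              (a i.1 - a₀ i.1) - (a (fst0 N d) - a₀ (fst0 N d)) := by ring
          rw [h3]
          exact dvd_sub (ha _).2 (ha _).2
      · refine ⟨?_, ?_⟩
        · have h1 := (ha i.1).1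
          have h2 : (0 : ℤ) ≤ H := Int.natCast_nonneg _
          rw [sub_zero]
          linarith
        · simpa using (ha i.1).2
    have hev : ∀ (k : Type) [Field k], ev g (fun i => ((par a).1 i : k)) ((d : k) * ((par a).2 : k)) =
        ((ev g (par a).1 (d * (par a).2) : ℤ) : k) := by
      intro k _
      rw [← ev_cast]
      push_cast
      rfl
    constructor
    · intro k _ _ x hx
      by_contra hne
      rw [hform k] at hx
      have h1 := hE1 k _ _ x hne hx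
      rw [hev] at h1
      have h2 : ev g (par a).1 (d * (par a).2) = 0 := by exact_mod_cast h1
      exact hZ ⟨hbox.1, hbox.2.1, hbox.2.2, Or.inl h2⟩
    · intro p hp k _ _ x s hxs h0 hx hdet
      by_cases hpP : p ≤ P
      · have hpS : p ∈ S := Finset.mem_filter.2 ⟨Finset.mem_range.2 (by omega), hp⟩
        have heq : (fun m => (a m : k)) = fun m => (sm p m : k) := by
          funext m
          have h1 : (p : ℤ) ∣ a m - sm p m := by
            have h2 : a m - sm p m = (a m - a₀ m) + (a₀ m - sm p m) := by ring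
            rw [h2]
            exact dvd_add ((hQd p hpS).trans (ha m).2) (ha₀ m p hpS)
          have h3 : ((a m - sm p m : ℤ) : k) = 0 := (CharP.intCast_eq_zero_iff k p _).2 h1
          push_cast at h3
          exact sub_eq_zero.1 h3
        rw [heq] at h0 hx
        have h4 := hsm p hp k x h0 hx
        rw [h4] at hxs
        simp at hxs
      · push Not at hpP
        have hne : x ≠ 0 := by
          intro h
          rw [h] at hxs
          simp at hxs
        rw [hform k] at hx hdet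
        have h1 := hE1 k _ _ x hne hx
        rw [hev] at h1
        have h2 := hE2 k _ _ x s hxs hx hdet
        rw [eval_cast] at h2
        exact hZ ⟨hbox.1, hbox.2.1, hbox.2.2, Or.inr (Or.inr ⟨p, hp, hpP,
          (CharP.intCast_eq_zero_iff k p _).1 h1, (CharP.intCast_eq_zero_iff k p _).1 h2⟩)⟩
  -- conclusion
  have hQ0 : (0 : ℝ) < Q := by exact_mod_cast hQ1
  refine ⟨1 / 2 * (1 / (3 * Q)) ^ Fintype.card (Mon (N + 1) d), by positivity,
    max H₀ Q, ?_⟩
  intro H hH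
  have hH1 : H₀ ≤ H := le_trans (le_max_left _ _) hH
  have hH2 : Q ≤ H := le_trans (le_max_right _ _) hH
  have hZc := hH₀ H hH1
  have hT := hTcard H hH2
  have hfin : {a : Mon (N + 1) d → ℤ | (∀ m, |a m| ≤ H) ∧ GoodVec a}.Finite := by
    have h1 : (Set.pi Set.univ (fun _ : Mon (N + 1) d => Set.Icc (-(H : ℤ)) H)).Finite :=
      Set.Finite.pi (fun _ => Set.finite_Icc _ _)
    refine h1.subset ?_
    rintro a ⟨h2, -⟩ i _
    exact abs_le.1 (h2 i)
  have hsub : (T H : Set (Mon (N + 1) d → ℤ)) ⊆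
      {a : Mon (N + 1) d → ℤ | (∀ m, |a m| ≤ H) ∧ GoodVec a} ∪
        ((T H : Set (Mon (N + 1) d → ℤ)) ∩ par ⁻¹' (Z H)) := by
    intro a ha
    by_cases hz : par a ∈ Z H
    · exact Or.inr ⟨ha, hz⟩
    · exact Or.inl ⟨fun m => ((hTmem H a).1 ha m).1, hgood H a ha hz⟩
  have hfin2 : ((T H : Set (Mon (N + 1) d → ℤ)) ∩ par ⁻¹' (Z H)).Finite :=
    (Finset.finite_toSet _).subset Set.inter_subset_left
  have h1 : (T H).card ≤ {a : Mon (N + 1) d → ℤ | (∀ m, |a m| ≤ H) ∧ GoodVec a}.ncard +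
      ((T H : Set (Mon (N + 1) d → ℤ)) ∩ par ⁻¹' (Z H)).ncard := by
    rw [← Set.ncard_coe_finset]
    exact (Set.ncard_le_ncard hsub (hfin.union hfin2)).trans (Set.ncard_union_le _ _)
  have h2 : ((T H : Set (Mon (N + 1) d → ℤ)) ∩ par ⁻¹' (Z H)).ncard ≤ (Z H).ncard :=
    Set.ncard_le_ncard_of_injOn par (fun a ha => ha.2) (fun a _ a' _ h => par_inj h) (hZfin H)
  have h3 : ((T H).card : ℝ) ≤
      ({a : Mon (N + 1) d → ℤ | (∀ m, |a m| ≤ H) ∧ GoodVec a}.ncard : ℝ) + ((Z H).ncard : ℝ) := by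
    exact_mod_cast h1.trans (Nat.add_le_add_left h2 _)
  have h4 : ((Z H).ncard : ℝ) ≤ C₁ / P * ((H : ℝ) / Q) ^ (Fintype.card (Idx N d) + 1) := hZc
  rw [← card_mon] at h4
  have h5 : C₁ / P ≤ 1 / 2 := by
    rw [div_le_iff₀ hP1]
    linarith
  set M := Fintype.card (Mon (N + 1) d) with hM
  have hHQ : (0 : ℝ) ≤ ((H : ℝ) / Q) ^ M := by positivity
  have h6 : C₁ / P * ((H : ℝ) / Q) ^ M ≤ 1 / 2 * ((H : ℝ) / Q) ^ M :=
    mul_le_mul_of_nonneg_right h5 hHQ
  have hH3 : (1 : ℝ) ≤ H := by exact_mod_cast hQ1.trans hH2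
  have h7 : (1 / (3 * Q) : ℝ) ^ M * (2 * (H : ℝ) + 1) ^ M ≤ ((H : ℝ) / Q) ^ M := by
    rw [← mul_pow]
    apply pow_le_pow_left₀ (by positivity)
    rw [div_mul_eq_mul_div, one_mul, div_le_div_iff₀ (by positivity) hQ0]
    nlinarith
  have h8 : 1 / 2 * (1 / (3 * (Q : ℝ))) ^ M * (2 * (H : ℝ) + 1) ^ M =
      1 / 2 * ((1 / (3 * Q) : ℝ) ^ M * (2 * (H : ℝ) + 1) ^ M) := by ring
  rw [h8]
  linarith

end Pool.Agent.K3h91.ND
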